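import Pool.Agent.Helper65.PR.TK4A

/-!
# The spectral radius: cyclicity and continuity (piece E11A)
-/

namespace PR

open ContinuousLinearMap Polynomial

section swap

variable {V W : Type*} [NormedAddCommGroup V] [NormedSpace ℂ V] [CompleteSpace V]
  [NormedAddCommGroup W] [NormedSpace ℂ W] [CompleteSpace W]

omit [CompleteSpace V] [CompleteSpace W] in
theorem sr_swap_isUnit (A : V →L[ℂ] W) (B : W →L[ℂ] V) {z : ℂ} (hz : z ≠ 0)
    (h : IsUnit (algebraMap ℂ (V →L[ℂ] V) z - B.comp A)) :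
    IsUnit (algebraMap ℂ (W →L[ℂ] W) z - A.comp B) := by
  obtain ⟨u, hu⟩ := h
  set R : V →L[ℂ] V := ((u⁻¹ : (V →L[ℂ] V)ˣ) : V →L[ℂ] V) with hR
  have h1 : ∀ x : V, z • R x - B (A (R x)) = x := by
    intro x
    have h0 : (u : V →L[ℂ] V) * R = 1 := u.mul_inv
    have h2 := congrArg (fun L : V →L[ℂ] V => L x) h0
    rw [hu] at h2
    simpa [Algebra.algebraMap_eq_smul_one] using h2
  have h2 : ∀ x : V, R (z • x - B (A x)) = x := by
    intro x
    have h0 : R * (u : V →L[ℂ] V) = 1 := u.inv_mul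
    have h2 := congrArg (fun L : V →L[ℂ] V => L x) h0
    rw [hu] at h2
    simpa [Algebra.algebraMap_eq_smul_one] using h2
  have h3 : ∀ x : V, A (B (A (R x))) = z • A (R x) - A x := by
    intro x
    have h4 := congrArg A (h1 x)
    rw [map_sub, map_smul] at h4
    rw [← h4]; abel
  refine ⟨⟨algebraMap ℂ (W →L[ℂ] W) z - A.comp B,
    z⁻¹ • ((1 : W →L[ℂ] W) + A.comp (R.comp B)), ?_, ?_⟩, rfl⟩
  · ext y
    simp only [Algebra.algebraMap_eq_smul_one, mul_apply_eq_comp, sub_apply, smul_apply,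
      one_apply_eq_self, add_apply, comp_apply, map_smul, map_add, h3]
    rw [sub_sub_cancel, sub_add_cancel, smul_smul, inv_mul_cancel₀ hz, one_smul]
  · ext y
    simp only [Algebra.algebraMap_eq_smul_one, mul_apply_eq_comp, sub_apply, smul_apply,
      one_apply_eq_self, add_apply, comp_apply, map_smul, map_sub]
    have h4 := congrArg A (h2 (B y))
    simp only [map_sub, map_smul] at h4
    have h5 : A (R (B (A (B y)))) = z • A (R (B y)) - A (B y) := by
      rw [eq_sub_iff_add_eq, add_comm]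
      exact (sub_eq_iff_eq_add.1 h4).symm
    rw [h5, add_sub_cancel, smul_smul, smul_smul, mul_inv_cancel₀ hz, inv_mul_cancel₀ hz, one_smul,
      one_smul, add_sub_cancel_right]

theorem sr_swap_le (A : V →L[ℂ] W) (B : W →L[ℂ] V) : sr (A.comp B) ≤ sr (B.comp A) := by
  refine sr_le (sr_nonneg _) fun l hl => ?_
  rcases eq_or_ne l 0 with rfl | h0
  · rw [norm_zero]; exact sr_nonneg _
  · refine norm_le_sr_of_mem ?_
    rw [spectrum.mem_iff] at hl ⊢
    exact fun h => hl (sr_swap_isUnit A B h0 h)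

end swap

theorem sr_swap {V W : Type*} [NormedAddCommGroup V] [NormedSpace ℂ V] [CompleteSpace V]
    [NormedAddCommGroup W] [NormedSpace ℂ W] [CompleteSpace W] (A : V →L[ℂ] W) (B : W →L[ℂ] V) :
    sr (A.comp B) = sr (B.comp A) :=
  le_antisymm (sr_swap_le A B) (sr_swap_le B A)

section cont

theorem pow_card_le_norm_prod (s : Multiset ℂ) {l : ℂ} {ε : ℝ} (hε : 0 ≤ ε)
    (h : ∀ w ∈ s, ε ≤ ‖l - w‖) : ε ^ s.card ≤ ‖(s.map fun w => l - w).prod‖ := by
  induction s using Multiset.induction_on with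
  | empty => simp
  | cons a s ih =>
    rw [Multiset.card_cons, pow_succ', Multiset.map_cons, Multiset.prod_cons, norm_mul]
    exact mul_le_mul (h a (Multiset.mem_cons_self a s))
      (ih fun w hw => h w (Multiset.mem_cons_of_mem hw)) (pow_nonneg hε _) (norm_nonneg _)

variable {V : Type*} [NormedAddCommGroup V] [NormedSpace ℂ V] [FiniteDimensional ℂ V]

theorem mem_spectrum_coe (T : V →L[ℂ] V) (l : ℂ) :
    l ∈ spectrum ℂ T ↔ (T : V →ₗ[ℂ] V).charpoly.IsRoot l := by
  rw [← AlgEquiv.spectrum_eq (Module.End.toContinuousLinearMap V).symm T,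
    Module.End.mem_spectrum_iff_isRoot_charpoly]
  rfl

theorem exists_near (T : V →L[ℂ] V) (l : ℂ) {ε : ℝ} (hε : 0 < ε)
    (h : ‖(T : V →ₗ[ℂ] V).charpoly.eval l‖ < ε ^ Module.finrank ℂ V) :
    ∃ w ∈ spectrum ℂ T, ‖l - w‖ < ε := by
  by_contra hcon
  push Not at hcon
  have hsp := IsAlgClosed.splits (T : V →ₗ[ℂ] V).charpoly
  have hm := LinearMap.charpoly_monic (T : V →ₗ[ℂ] V)
  rw [hsp.eval_eq_prod_roots_of_monic hm] at h
  have hcard : (T : V →ₗ[ℂ] V).charpoly.roots.card = Module.finrank ℂ V := by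
    rw [← LinearMap.charpoly_natDegree (T : V →ₗ[ℂ] V), hsp.natDegree_eq_card_roots]
  rw [← hcard] at h
  refine absurd h (not_lt.2 (pow_card_le_norm_prod _ hε.le fun w hw => hcon w ?_))
  rw [mem_spectrum_coe]
  exact (mem_roots hm.ne_zero).1 hw

theorem continuous_charpoly_eval (l : ℂ) :
    Continuous fun T : V →L[ℂ] V => (T : V →ₗ[ℂ] V).charpoly.eval l := by
  have h : (fun T : V →L[ℂ] V => (T : V →ₗ[ℂ] V).charpoly.eval l) =
      fun T : V →L[ℂ] V => (algebraMap ℂ (V →L[ℂ] V) l - T).det := by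
    funext T
    rw [LinearMap.eval_charpoly]
    rfl
  rw [h]
  exact ContinuousLinearMap.continuous_det.comp (continuous_const.sub continuous_id)

theorem sr_continuous {V : Type*} [NormedAddCommGroup V] [NormedSpace ℂ V]
    [FiniteDimensional ℂ V] : Continuous (fun T : V →L[ℂ] V => sr T) := by
  have _ : CompleteSpace V := FiniteDimensional.complete ℂ V
  rcases subsingleton_or_nontrivial V with hs | hn
  · have h : (fun T : V →L[ℂ] V => sr T) = fun _ => sr (0 : V →L[ℂ] V) := by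
      funext T
      rw [Subsingleton.elim T 0]
    rw [h]
    exact continuous_const
  rw [continuous_iff_continuousAt]
  intro T0
  rw [Metric.continuousAt_iff']
  intro ε hε
  obtain ⟨l0, hl0, hl1⟩ := spectrum.exists_nnnorm_eq_spectralRadius T0
  have hl2 : ‖l0‖ = sr T0 := by rw [sr, ← hl1]; simp
  have hup : ∀ᶠ T in nhds T0, Metric.ball (0 : ℂ) (sr T0 + ε / 2) ∈ nhdsSet (spectrum ℂ T) := by
    refine upperHemicontinuous_spectrum ℂ (V →L[ℂ] V) T0 _ ?_
    change Metric.ball (0 : ℂ) (sr T0 + ε / 2) ∈ nhdsSet (spectrum ℂ T0)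
    rw [Metric.isOpen_ball.mem_nhdsSet]
    intro l hl
    rw [Metric.mem_ball, dist_zero_right]
    linarith [norm_le_sr_of_mem hl]
  have hlow : ∀ᶠ T : V →L[ℂ] V in nhds T0,
      ‖(T : V →ₗ[ℂ] V).charpoly.eval l0‖ < ε ^ Module.finrank ℂ V := by
    have hc := (continuous_charpoly_eval (V := V) l0).norm.continuousAt (x := T0)
    refine hc.eventually_lt_const ?_
    have h0 : (T0 : V →ₗ[ℂ] V).charpoly.eval l0 = 0 := (mem_spectrum_coe T0 l0).1 hl0
    change ‖(T0 : V →ₗ[ℂ] V).charpoly.eval l0‖ < ε ^ Module.finrank ℂ V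
    rw [h0, norm_zero]
    exact pow_pos hε _
  filter_upwards [hup, hlow] with T h1 h2
  rw [Metric.isOpen_ball.mem_nhdsSet] at h1
  have h3 : sr T ≤ sr T0 + ε / 2 := by
    refine sr_le (by linarith [sr_nonneg T0]) fun l hl => ?_
    have := h1 hl
    rw [Metric.mem_ball, dist_zero_right] at this
    exact this.le
  obtain ⟨w, hw, hw2⟩ := exists_near T l0 hε h2
  have h4 := norm_le_sr_of_mem hw
  have h5 : ‖l0‖ ≤ ‖l0 - w‖ + ‖w‖ := by
    calc ‖l0‖ = ‖(l0 - w) + w‖ := by rw [sub_add_cancel]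
      _ ≤ _ := norm_add_le _ _
  rw [Real.dist_eq, abs_lt]
  constructor <;> linarith

end cont

end PR
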