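import Pool.Agent.Helper40.PR.Defs3

/-!
# Maps preserving the spectral radius of the skew Lie product: the form of the preservers

The definition `PR.FormE` shared by the pieces E12 and E13.
-/

namespace PR

open ContinuousLinearMap

section

variable {H : Type*} [NormedAddCommGroup H] [InnerProductSpace ℂ H] [CompleteSpace H]
variable {K : Type*} [NormedAddCommGroup K] [InnerProductSpace ℂ K] [CompleteSpace K]

/-- the form of the preservers of the skew Lie product -/
def FormE (φ : (H →L[ℂ] H) → (K →L[ℂ] K)) : Prop :=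
  (∃ U : H ≃ₗᵢ[ℂ] K, ∀ T, ∃ ε : ℂ, (ε = 1 ∨ ε = -1) ∧
    ((∀ y, φ T y = ε • U (T (U.symm y))) ∨
     (Special T ∧ ∀ y, φ T y = ε • U (adjoint T (U.symm y))))) ∨
  (∃ U : H ≃ₛₗᵢ[starRingEnd ℂ] K, ∀ T, ∃ ε : ℂ, (ε = 1 ∨ ε = -1) ∧
    ((∀ y, φ T y = ε • U (T (U.symm y))) ∨
     (Special T ∧ ∀ y, φ T y = ε • U (adjoint T (U.symm y)))))

end

end PR
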