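import Pool.Agent.Helper28.PR.E1
import Pool.Agent.Helper2.PR.FormE

/-!
# Special operators and the converse for the skew Lie product (pieces E11D, E13)
-/

namespace PR

open ContinuousLinearMap InnerProductSpace Complex

open scoped ComplexConjugate

section

variable {H : Type*} [NormedAddCommGroup H] [InnerProductSpace ℂ H] [CompleteSpace H]
variable {K : Type*} [NormedAddCommGroup K] [InnerProductSpace ℂ K] [CompleteSpace K]

theorem adjoint_real_smul_one (r : ℝ) :
    adjoint ((r : ℂ) • (1 : H →L[ℂ] H)) = (r : ℂ) • (1 : H →L[ℂ] H) := by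
  rw [map_smulₛₗ, Complex.conj_ofReal]
  congr 1
  exact star_one _

theorem test_of_special_mul {T V : H →L[ℂ] H} {b γ : ℝ} (hV : V = T + (b : ℂ) • (1 : H →L[ℂ] H))
    (hγ : 0 < γ) (h1 : adjoint V * V = (γ : ℂ) • (1 : H →L[ℂ] H))
    (h2 : V * adjoint V = (γ : ℂ) • (1 : H →L[ℂ] H)) (S : H →L[ℂ] H) :
    sr (skb (adjoint T) S) = sr (skb T S) := by
  have hV' : adjoint V = adjoint T + (b : ℂ) • (1 : H →L[ℂ] H) := by
    rw [hV, map_add, adjoint_real_smul_one]
  have e1 : skb T S = V * S - S * adjoint V := by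
    rw [hV', hV, skb, add_mul, mul_add, smul_mul_assoc, mul_smul_comm, one_mul, mul_one]
    abel
  have e2 : skb (adjoint T) S = adjoint V * S - S * V := by
    rw [hV', hV, skb, adjoint_adjoint, add_mul, mul_add, smul_mul_assoc, mul_smul_comm, one_mul,
      mul_one]
    abel
  have e3 : adjoint V * (skb T S * V) = -((γ : ℂ) • skb (adjoint T) S) := by
    rw [e1, e2, sub_mul, mul_sub]
    have a1 : adjoint V * (V * S * V) = (γ : ℂ) • (S * V) := by
      rw [← mul_assoc, ← mul_assoc, h1, smul_mul_assoc, smul_mul_assoc, one_mul]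
    have a2 : adjoint V * (S * adjoint V * V) = (γ : ℂ) • (adjoint V * S) := by
      rw [mul_assoc, h1, mul_smul_comm, mul_one, mul_smul_comm]
    rw [a1, a2, smul_sub]
    abel
  have e4 : sr (adjoint V * (skb T S * V)) = γ * sr (skb T S) := by
    rw [sr_comm, mul_assoc, h2, mul_smul_comm, mul_one, sr_smul, Complex.norm_real,
      Real.norm_of_nonneg hγ.le]
  rw [e3, sr_neg, sr_smul, Complex.norm_real, Real.norm_of_nonneg hγ.le] at e4
  exact mul_left_cancel₀ hγ.ne' e4

/-- E11D -/
theorem test_of_special {T : H →L[ℂ] H} (hT : Special T) (S : H →L[ℂ] H) :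
    sr (skb (adjoint T) S) = sr (skb T S) := by
  rcases subsingleton_or_nontrivial H with hs | hs
  · exact congrArg sr (Subsingleton.elim _ _)
  obtain ⟨hn, a, b, c, habc, h⟩ := hT
  by_cases hc : c = 0
  · subst hc
    rw [Complex.ofReal_zero, zero_smul, add_zero] at h
    by_cases hb : b = 0
    · subst hb
      rw [Complex.ofReal_zero, zero_smul, add_zero] at h
      exfalso
      apply habc
      have ha : (a : ℂ) = 0 := by
        rcases smul_eq_zero.1 h with h0 | h0
        · exact h0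
        · exact absurd h0 one_ne_zero
      rw [Complex.ofReal_eq_zero] at ha
      rw [ha]
    · have hb' : (b : ℂ) ≠ 0 := Complex.ofReal_ne_zero.2 hb
      set r : ℂ := -((b : ℂ)⁻¹ * a) with hr
      have h1 : adjoint T = r • (1 : H →L[ℂ] H) - T := by
        have h2 := congrArg (fun L : H →L[ℂ] H => (b : ℂ)⁻¹ • L) h
        simp only [smul_add, smul_smul, inv_mul_cancel₀ hb', one_smul, smul_zero] at h2
        rw [hr, neg_smul, eq_sub_iff_add_eq, eq_neg_iff_add_eq_zero, ← h2]
        abel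
      have h2 : skb (adjoint T) S = -skb T S := by
        rw [skb, skb, adjoint_adjoint, h1, sub_mul, mul_sub, smul_mul_assoc, mul_smul_comm, one_mul,
          mul_one]
        abel
      rw [h2, sr_neg]
  · have hc' : (c : ℂ) ≠ 0 := Complex.ofReal_ne_zero.2 hc
    set V : H →L[ℂ] H := T + ((b / c : ℝ) : ℂ) • (1 : H →L[ℂ] H) with hV
    set γ : ℝ := (b / c) ^ 2 - a / c with hγ
    have hV' : adjoint V = adjoint T + ((b / c : ℝ) : ℂ) • (1 : H →L[ℂ] H) := by
      rw [hV, map_add, adjoint_real_smul_one]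
    have h0 : ((a / c : ℝ) : ℂ) • (1 : H →L[ℂ] H) + ((b / c : ℝ) : ℂ) • (T + adjoint T) +
        adjoint T * T = 0 := by
      have h2 := congrArg (fun L : H →L[ℂ] H => (c : ℂ)⁻¹ • L) h
      simp only [smul_add, smul_smul, inv_mul_cancel₀ hc', one_smul, smul_zero] at h2
      rw [← h2, Complex.ofReal_div, Complex.ofReal_div, div_eq_inv_mul, div_eq_inv_mul, smul_add]
    have h1 : adjoint V * V = (γ : ℂ) • (1 : H →L[ℂ] H) := by
      have hγc : (γ : ℂ) = ((b / c : ℝ) : ℂ) ^ 2 - ((a / c : ℝ) : ℂ) := by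
        rw [hγ]; push_cast; ring
      rw [hV', hV, mul_add, add_mul, add_mul, smul_mul_assoc, mul_smul_comm, mul_smul_comm, one_mul,
        mul_one, mul_one, hγc]
      linear_combination (norm := module) h0
    have h2 : V * adjoint V = (γ : ℂ) • (1 : H →L[ℂ] H) := by
      rw [← h1, hV', hV]
      simp only [mul_add, add_mul, smul_mul_assoc, mul_smul_comm, one_mul, mul_one, hn, smul_add]
      abel
    have h3 : ∀ x : H, ‖V x‖ ^ 2 = γ * ‖x‖ ^ 2 := by
      intro x
      have h4 := congrArg (fun L : H →L[ℂ] H => inner ℂ x (L x)) h1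
      simp only [mul_apply_eq_comp, smul_apply, one_apply_eq_self, inner_smul_right] at h4
      rw [adjoint_inner_right, inner_self_eq_norm_sq_to_K, inner_self_eq_norm_sq_to_K] at h4
      apply Complex.ofReal_injective
      push_cast
      exact h4
    rcases lt_trichotomy γ 0 with hg | hg | hg
    · exfalso
      obtain ⟨x, hx⟩ := exists_ne (0 : H)
      have h4 := h3 x
      have h5 : 0 < ‖x‖ ^ 2 := pow_pos (norm_pos_iff.2 hx) 2
      have h6 : 0 ≤ ‖V x‖ ^ 2 := sq_nonneg _
      nlinarith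
    · have hV0 : V = 0 := by
        ext x
        have h4 := h3 x
        rw [hg, zero_mul] at h4
        rw [zero_apply]
        exact norm_eq_zero.1 (pow_eq_zero_iff (two_ne_zero) |>.1 h4)
      have h5 : adjoint T = T := by
        have h6 : adjoint V = V := by rw [hV0, map_zero]
        rw [hV', hV] at h6
        exact add_right_cancel h6
      rw [h5]
    · exact test_of_special_mul hV hg h1 h2 S

omit [CompleteSpace H] [CompleteSpace K] in
theorem inner_conj_iso (U : H ≃ₛₗᵢ[starRingEnd ℂ] K) (x y : H) :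
    inner ℂ (U x) (U y) = conj (inner ℂ x y) := by
  rw [inner_eq_sum_norm_sq_div_four, inner_eq_sum_norm_sq_div_four]
  have hI : (RCLike.I : ℂ) • U y = -U ((RCLike.I : ℂ) • y) := by
    rw [map_smulₛₗ, RCLike.conj_I, neg_smul, neg_neg]
  rw [hI, sub_neg_eq_add, ← sub_eq_add_neg, ← map_add, ← map_sub, ← map_add, ← map_sub,
    U.norm_map, U.norm_map, U.norm_map, U.norm_map]
  simp only [map_div₀, map_add, map_sub, map_mul, map_pow, RCLike.conj_ofReal, RCLike.conj_I,
    map_ofNat]
  ring

theorem skb_sign {A B : H →L[ℂ] H} {ε δ : ℂ} (hε : ε = 1 ∨ ε = -1) (hδ : δ = 1 ∨ δ = -1) :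
    sr (skb (ε • A) (δ • B)) = sr (skb A B) := by
  rw [e_smul_right]
  have h1 : ‖δ‖ = 1 := by rcases hδ with rfl | rfl <;> simp
  rw [h1, one_mul]
  rcases hε with rfl | rfl
  · rw [one_smul]
  · rw [neg_one_smul, e_neg_left]

/-- the values of a preserver with `T` or `T†` for special `T` give the same test -/
theorem test_choice {T S T' S' : H →L[ℂ] H} (hT : T' = T ∨ (Special T ∧ T' = adjoint T))
    (hS : S' = S ∨ (Special S ∧ S' = adjoint S)) : sr (skb T' S') = sr (skb T S) := by
  have h1 : sr (skb T' S') = sr (skb T S') := by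
    rcases hT with rfl | ⟨h, rfl⟩
    · rfl
    · exact test_of_special h S'
  rw [h1]
  rcases hS with rfl | ⟨-, rfl⟩
  · rfl
  · exact e_adj_right T S

theorem pres_of_theta {φ : (H →L[ℂ] H) → (K →L[ℂ] K)} (θ : (H →L[ℂ] H) → (K →L[ℂ] K))
    (h1 : ∀ A B, sr (skb (θ A) (θ B)) = sr (skb A B))
    (h2 : ∀ T, ∃ (ε : ℂ) (T' : H →L[ℂ] H), (ε = 1 ∨ ε = -1) ∧
      (T' = T ∨ (Special T ∧ T' = adjoint T)) ∧ φ T = ε • θ T') (T S : H →L[ℂ] H) :
    sr (skb (φ T) (φ S)) = sr (skb T S) := by
  obtain ⟨ε, T', hε, hT', hT⟩ := h2 T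
  obtain ⟨δ, S', hδ, hS', hS⟩ := h2 S
  rw [hT, hS, skb_sign hε hδ, h1, test_choice hT' hS']

/-- E13. converse. -/
theorem pres_of_formE {φ : (H →L[ℂ] H) → (K →L[ℂ] K)} (hφ : FormE φ) (T S : H →L[ℂ] H) :
    sr (skb (φ T) (φ S)) = sr (skb T S) := by
  rcases hφ with ⟨U, hU⟩ | ⟨U, hU⟩
  · refine pres_of_theta (fun A => (U.toContinuousLinearEquiv : H →L[ℂ] K).comp
      (A.comp (U.symm.toContinuousLinearEquiv : K →L[ℂ] H))) ?_ ?_ T S
    · intro A B
      have hadj : adjoint ((U.toContinuousLinearEquiv : H →L[ℂ] K).comp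
          (A.comp (U.symm.toContinuousLinearEquiv : K →L[ℂ] H))) =
          (U.toContinuousLinearEquiv : H →L[ℂ] K).comp
          ((adjoint A).comp (U.symm.toContinuousLinearEquiv : K →L[ℂ] H)) := by
        symm
        rw [eq_adjoint_iff]
        intro x y
        obtain ⟨x, rfl⟩ := U.surjective x
        obtain ⟨y, rfl⟩ := U.surjective y
        simp [adjoint_inner_left]
      refine sr_conj U.toContinuousLinearEquiv (skb A B) _ fun x => ?_
      simp only [skb, hadj]
      simp
    · intro T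
      obtain ⟨ε, hε, h | ⟨hs, h⟩⟩ := hU T
      · exact ⟨ε, T, hε, Or.inl rfl, by ext y; simp [h]⟩
      · exact ⟨ε, adjoint T, hε, Or.inr ⟨hs, rfl⟩, by ext y; simp [h]⟩
  · refine pres_of_theta (fun A => (U.toContinuousLinearEquiv : H →SL[starRingEnd ℂ] K).comp
      (A.comp (U.symm.toContinuousLinearEquiv : K →SL[starRingEnd ℂ] H))) ?_ ?_ T S
    · intro A B
      have hadj : adjoint ((U.toContinuousLinearEquiv : H →SL[starRingEnd ℂ] K).comp
          (A.comp (U.symm.toContinuousLinearEquiv : K →SL[starRingEnd ℂ] H))) =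
          (U.toContinuousLinearEquiv : H →SL[starRingEnd ℂ] K).comp
          ((adjoint A).comp (U.symm.toContinuousLinearEquiv : K →SL[starRingEnd ℂ] H)) := by
        symm
        rw [eq_adjoint_iff]
        intro x y
        obtain ⟨x, rfl⟩ := U.surjective x
        obtain ⟨y, rfl⟩ := U.surjective y
        simp [adjoint_inner_left, inner_conj_iso]
      refine sr_conj_star U.toContinuousLinearEquiv (skb A B) _ fun x => ?_
      simp only [skb, hadj]
      simp
    · intro T
      obtain ⟨ε, hε, h | ⟨hs, h⟩⟩ := hU T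
      · exact ⟨ε, T, hε, Or.inl rfl, by ext y; simp [h]⟩
      · exact ⟨ε, adjoint T, hε, Or.inr ⟨hs, rfl⟩, by ext y; simp [h]⟩

end

end PR
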